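import Pool.Agent.RichC.Dec

/-!
MP_086d3c_co: when are two words factors of a common rich word?

A word (a list) `w` is rich (`Rich w`) if it has exactly `|w| + 1` distinct palindromic factors,
the empty word included.  `u <:+: w` means that `u` is a factor of `w`.  Letters are natural
numbers and an alphabet `A` is a list of letters.

There is a polynomial-time computable `f` such that for all `A`, `u`, `v` the following are
equivalent: `f` answers yes; some rich word over `A` has `u` and `v` as factors; some rich word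
over `A` of length at most `3 (|u| + |v|)` has `u` and `v` as factors; `u` and `v` are rich words
over `A` and some factor `z` of `u`, with `z` or its reversal a factor of `v`, contains every
palindrome that is a factor of both `u` and `v`.
-/

namespace Pool.Agent.Results.MP_086d3c_co.CommonRichCriterion

open Pool.Agent.RichW (Rich rich_infix)
open Pool.Agent.PolyTime (PolyTime)

theorem result : ∃ f : List ℕ × List ℕ × List ℕ → Bool, PolyTime f ∧ ∀ A u v : List ℕ,
    List.TFAE [
      f (A, u, v) = true,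
      ∃ w : List ℕ, (∀ a ∈ w, a ∈ A) ∧ Rich w ∧ u <:+: w ∧ v <:+: w,
      ∃ w : List ℕ, (∀ a ∈ w, a ∈ A) ∧ Rich w ∧ u <:+: w ∧ v <:+: w ∧
        w.length ≤ 3 * (u.length + v.length),
      (∀ a ∈ u ++ v, a ∈ A) ∧ Rich u ∧ Rich v ∧
        ∃ z, z <:+: u ∧ (z <:+: v ∨ z.reverse <:+: v) ∧
          ∀ p, p.reverse = p → p <:+: u → p <:+: v → p <:+: z] := by
  refine ⟨RichC.decB, RichC.pt_decB, fun A u v => ?_⟩
  have h12 := RichC.decB_iff A u v
  tfae_have 1 ↔ 2 := h12
  tfae_have 3 → 2 := by
    rintro ⟨w, h1, h2, h3, h4, _⟩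
    exact ⟨w, h1, h2, h3, h4⟩
  tfae_have 2 → 4 := by
    rintro ⟨w, h1, h2, h3, h4⟩
    obtain ⟨z, h5, h6, h7⟩ := RichC.necessity w h2 u v h3 h4
    refine ⟨fun a ha => ?_, rich_infix h2 h3, rich_infix h2 h4, z, h5, h6,
      fun p hp hpu hpv => (h7 p ⟨hpu, hp⟩ ⟨hpv, hp⟩).1⟩
    rcases List.mem_append.1 ha with h | h
    · exact h1 a (h3.subset h)
    · exact h1 a (h4.subset h)
  tfae_have 4 → 3 := by
    rintro ⟨h1, h2, h3, z, h4, h5, h6⟩
    obtain ⟨w, h7, h8, h9, h10, h11⟩ := RichC.exists_common h2 h3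
      (show RichC.Cm u v z from ⟨h4, h5, fun p hp hq => ⟨h6 p hp.2 hp.1 hq.1, hp.2⟩⟩)
    exact ⟨w, fun a ha => h1 a (List.mem_append.2 (h11 a ha)), h7, h8, h9, h10⟩
  tfae_finish

end Pool.Agent.Results.MP_086d3c_co.CommonRichCriterion
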